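import Pool.Agent.Helper82.RD.Defs

/-!
# Project RD (MP_86d903_lc), module ABS: absorption of the vectors with few odd atoms
-/

set_option autoImplicit false

open Finset MP86d903

namespace Pool.Agent.Helper82.RD

variable {ι V : Type} [DecidableEq ι] [Fintype ι] [Fintype V] [DecidableEq V]
  {vs ng : ι → Finset V} {q : ℕ}

omit [Fintype ι] in
/-- ABS (absorption of the vectors with few odd atoms). -/
theorem mABS {τ : ℕ}
    (hPER : ∀ G G' : Finset V, G ⊆ G' → ∀ b : V → ZMod 2,
      (∀ x, x ∉ Cl vs q G' → bs vs (Cl vs q G) b x = 0) → b ∈ PM vs (Cl vs q G'))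
    (G : Finset V) (Λ P : Submodule (ZMod 2) (V → ZMod 2)) (hP : P ≤ Λ)
    (hPM : P ≤ PM vs (Cl vs q G)) :
    ∃ (E : Finset V) (P' : Submodule (ZMod 2) (V → ZMod 2)), P ≤ P' ∧ P' ≤ Λ ∧
      P' ≤ PM vs (Cl vs q (G ∪ E)) ∧
      E.card + τ * Module.finrank (ZMod 2) P ≤ τ * Module.finrank (ZMod 2) P' ∧
      ∀ b ∈ Λ, OO vs (Cl vs q (G ∪ E)) b = ∅ ∨ τ < (OO vs (Cl vs q (G ∪ E)) b).card := by
  obtain ⟨n, hn⟩ : ∃ n, n = Module.finrank (ZMod 2) Λ - Module.finrank (ZMod 2) P := ⟨_, rfl⟩
  induction n using Nat.strong_induction_on generalizing G P with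
  | _ n ih =>
    by_cases hall : ∀ b ∈ Λ, OO vs (Cl vs q G) b = ∅ ∨ τ < (OO vs (Cl vs q G) b).card
    · refine ⟨∅, P, le_rfl, hP, ?_, ?_, ?_⟩
      · rw [Finset.union_empty]
        exact hPM
      · simp
      · rw [Finset.union_empty]
        exact hall
    · push Not at hall
      obtain ⟨b, hb, hne, hcard⟩ := hall
      obtain ⟨O, hO⟩ : ∃ O, O = OO vs (Cl vs q G) b := ⟨_, rfl⟩
      rw [← hO] at hne hcard
      have hbP : b ∉ P := by
        intro hbP
        have h1 := mem_PM.1 (hPM hbP)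
        apply hne.ne_empty
        rw [hO, OO, Finset.filter_eq_empty_iff]
        rintro x - ⟨h2, h3⟩
        exact h3 (h1 x h2)
      have hGG : G ⊆ G ∪ O := Finset.subset_union_left
      have hCl : Cl vs q G ⊆ Cl vs q (G ∪ O) := Cl_mono hGG
      have hOC : O ⊆ Cl vs q (G ∪ O) := Finset.subset_union_right.trans (subset_Cl q _)
      have hbM : b ∈ PM vs (Cl vs q (G ∪ O)) := by
        refine hPER G (G ∪ O) hGG b fun x hx => ?_
        by_contra h1
        apply hx
        apply hOC
        rw [hO, OO, Finset.mem_filter]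
        exact ⟨Finset.mem_univ _, fun h2 => hx (hCl h2), h1⟩
      have hPM1 : P ≤ PM vs (Cl vs q (G ∪ O)) := by
        intro p hp
        exact hPER G (G ∪ O) hGG p fun x hx => mem_PM.1 (hPM hp) x fun h2 => hx (hCl h2)
      have hlt : P < P ⊔ Submodule.span (ZMod 2) {b} := by
        refine lt_of_le_of_ne le_sup_left fun h => hbP ?_
        rw [h]
        exact Submodule.mem_sup_right (Submodule.mem_span_singleton_self b)
      have hle : P ⊔ Submodule.span (ZMod 2) {b} ≤ Λ :=
        sup_le hP ((Submodule.span_singleton_le_iff_mem b Λ).2 hb)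
      have hf1 : Module.finrank (ZMod 2) P <
          Module.finrank (ZMod 2) (P ⊔ Submodule.span (ZMod 2) {b} : Submodule _ _) :=
        Submodule.finrank_lt_finrank_of_lt hlt
      have hf2 : Module.finrank (ZMod 2) (P ⊔ Submodule.span (ZMod 2) {b} : Submodule _ _) ≤
          Module.finrank (ZMod 2) Λ := Submodule.finrank_mono hle
      obtain ⟨E, P', h1, h2, h3, h4, h5⟩ := ih _ (by omega) (G ∪ O)
        (P ⊔ Submodule.span (ZMod 2) {b}) hle
        (sup_le hPM1 ((Submodule.span_singleton_le_iff_mem b _).2 hbM)) rfl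
      refine ⟨O ∪ E, P', le_sup_left.trans h1, h2, ?_, ?_, ?_⟩
      · rw [← Finset.union_assoc]
        exact h3
      · have h6 := Finset.card_union_le O E
        have h7 : τ * (Module.finrank (ZMod 2) P + 1) ≤
            τ * Module.finrank (ZMod 2) (P ⊔ Submodule.span (ZMod 2) {b} : Submodule _ _) :=
          Nat.mul_le_mul_left τ hf1
        rw [Nat.mul_add, Nat.mul_one] at h7
        omega
      · rw [← Finset.union_assoc]
        exact h5

end Pool.Agent.Helper82.RD
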